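import Mathlib

set_option autoImplicit false

/-! # The theorem of Balog, Szemerédi and Gowers in arbitrary groups -/

namespace Pool.Agent.K6.H47.GR

open Finset
open scoped Pointwise

section graph

variable {α β : Type}

theorem double_count (A : Finset α) (B : Finset β) (E : α → β → Prop)
    [∀ a b, Decidable (E a b)] :
    ∑ a ∈ A, (#{b ∈ B | E a b} : ℝ) = ∑ b ∈ B, (#{a ∈ A | E a b} : ℝ) := by
  have h := Finset.sum_card_bipartiteAbove_eq_sum_card_bipartiteBelow (s := A) (t := B) E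
  unfold Finset.bipartiteAbove Finset.bipartiteBelow at h
  exact_mod_cast h

open Classical in
theorem bad_count (A1 : Finset α) (B : Finset β) (E : α → β → Prop) (bad : α → α → Prop) :
    ∑ b ∈ B, (#{x ∈ {a ∈ A1 | E a b} ×ˢ {a ∈ A1 | E a b} | bad x.1 x.2} : ℝ) =
      ∑ x ∈ (A1 ×ˢ A1).filter (fun x => bad x.1 x.2), (#{b ∈ B | E x.1 b ∧ E x.2 b} : ℝ) := by
  rw [double_count ((A1 ×ˢ A1).filter (fun x => bad x.1 x.2)) B (fun x b => E x.1 b ∧ E x.2 b)]
  refine Finset.sum_congr rfl fun b _ => ?_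
  congr 2
  ext x
  simp only [Finset.mem_filter, Finset.mem_product]
  tauto

open Classical in
theorem pair_count (A2 : Finset α) (bad : α → α → Prop) :
    (#{x ∈ A2 ×ˢ A2 | bad x.1 x.2} : ℝ) = ∑ a ∈ A2, (#{a' ∈ A2 | bad a a'} : ℝ) := by
  have e4 : #{x ∈ A2 ×ˢ A2 | bad x.1 x.2} = ∑ a ∈ A2, #{a' ∈ A2 | bad a a'} := by
    rw [Finset.card_filter, Finset.sum_product]
    refine Finset.sum_congr rfl fun a _ => ?_
    rw [Finset.card_filter]
  exact_mod_cast e4

open Classical in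
/-- paths of length three in dense bipartite graphs -/
theorem paths (A : Finset α) (B : Finset β) (E : α → β → Prop) (K n : ℝ) (hK : 1 ≤ K)
    (hn : 0 < n) (hA : (#A : ℝ) = n) (hB : (#B : ℝ) = n)
    (hE : n ^ 2 ≤ K * ∑ a ∈ A, (#{b ∈ B | E a b} : ℝ)) :
    ∃ A' ⊆ A, ∃ B' ⊆ B, n ≤ 6 * K * #A' ∧ n ≤ 4 * K * #B' ∧ ∀ a ∈ A', ∀ b ∈ B',
      n ^ 2 ≤ 3072 * K ^ 5 * #{x ∈ B ×ˢ A | E a x.1 ∧ E x.2 x.1 ∧ E x.2 b} := by
  have hK0 : 0 < K := by linarith
  set A1 : Finset α := {a ∈ A | n ≤ 2 * K * #{b ∈ B | E a b}} with hA1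
  have hA1A : A1 ⊆ A := Finset.filter_subset _ _
  -- the edges of `A1`
  have h1 : n ^ 2 ≤ 2 * K * ∑ a ∈ A1, (#{b ∈ B | E a b} : ℝ) := by
    have e1 : ∑ a ∈ A, (#{b ∈ B | E a b} : ℝ) = ∑ a ∈ A1, (#{b ∈ B | E a b} : ℝ) +
        ∑ a ∈ A.filter (fun a => ¬ n ≤ 2 * K * #{b ∈ B | E a b}), (#{b ∈ B | E a b} : ℝ) :=
      (Finset.sum_filter_add_sum_filter_not _ _ _).symm
    have e2 : 2 * K * ∑ a ∈ A.filter (fun a => ¬ n ≤ 2 * K * #{b ∈ B | E a b}),
        (#{b ∈ B | E a b} : ℝ) ≤ n ^ 2 := by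
      rw [Finset.mul_sum]
      calc _ ≤ ∑ a ∈ A.filter (fun a => ¬ n ≤ 2 * K * #{b ∈ B | E a b}), n := by
            refine Finset.sum_le_sum fun a ha => ?_
            have := (Finset.mem_filter.1 ha).2
            linarith
        _ = (#(A.filter (fun a => ¬ n ≤ 2 * K * #{b ∈ B | E a b})) : ℝ) * n := by
            rw [Finset.sum_const, nsmul_eq_mul]
        _ ≤ n * n := by
            refine mul_le_mul_of_nonneg_right ?_ hn.le
            rw [← hA]
            exact_mod_cast Finset.card_filter_le _ _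
        _ = n ^ 2 := by ring
    nlinarith
  -- bad pairs
  obtain ⟨bad, hbad⟩ : ∃ bad : α → α → Prop, ∀ a a', bad a a' ↔
      128 * K ^ 3 * (#{b ∈ B | E a b ∧ E a' b} : ℝ) < n := ⟨_, fun _ _ => Iff.rfl⟩
  obtain ⟨Nb, hNb⟩ : ∃ Nb : β → Finset α, ∀ b, Nb b = {a ∈ A1 | E a b} := ⟨_, fun _ => rfl⟩
  obtain ⟨bd, hbd⟩ : ∃ bd : β → ℝ, ∀ b, bd b = (#{x ∈ Nb b ×ˢ Nb b | bad x.1 x.2} : ℝ) :=
    ⟨_, fun _ => rfl⟩
  have h2 : n ^ 2 ≤ 2 * K * ∑ b ∈ B, (#(Nb b) : ℝ) := by
    rw [double_count A1 B E] at h1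
    simp only [hNb]
    exact h1
  have h3 : n ^ 3 ≤ 4 * K ^ 2 * ∑ b ∈ B, (#(Nb b) : ℝ) ^ 2 := by
    have e1 := sq_sum_le_card_mul_sum_sq (s := B) (f := fun b => (#(Nb b) : ℝ))
    rw [hB] at e1
    have e2 : (n ^ 2) ^ 2 ≤ (2 * K * ∑ b ∈ B, (#(Nb b) : ℝ)) ^ 2 :=
      pow_le_pow_left₀ (by positivity) h2 2
    have e3 : n ^ 3 * n ≤ (4 * K ^ 2 * ∑ b ∈ B, (#(Nb b) : ℝ) ^ 2) * n := by
      calc n ^ 3 * n = (n ^ 2) ^ 2 := by ring
        _ ≤ _ := e2
        _ = 4 * K ^ 2 * (∑ b ∈ B, (#(Nb b) : ℝ)) ^ 2 := by ring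
        _ ≤ 4 * K ^ 2 * (n * ∑ b ∈ B, (#(Nb b) : ℝ) ^ 2) :=
            mul_le_mul_of_nonneg_left e1 (by positivity)
        _ = _ := by ring
    exact le_of_mul_le_mul_right e3 hn
  have h4 : 128 * K ^ 3 * ∑ b ∈ B, bd b ≤ n ^ 3 := by
    have e1 : ∑ b ∈ B, bd b = ∑ x ∈ (A1 ×ˢ A1).filter (fun x => bad x.1 x.2),
        (#{b ∈ B | E x.1 b ∧ E x.2 b} : ℝ) := by
      rw [← bad_count]
      refine Finset.sum_congr rfl fun b _ => ?_
      rw [hbd, hNb]
    rw [e1, Finset.mul_sum]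
    calc _ ≤ ∑ x ∈ (A1 ×ˢ A1).filter (fun x => bad x.1 x.2), n := by
          refine Finset.sum_le_sum fun x hx => ?_
          exact ((hbad _ _).1 (Finset.mem_filter.1 hx).2).le
      _ = (#((A1 ×ˢ A1).filter (fun x => bad x.1 x.2)) : ℝ) * n := by
          rw [Finset.sum_const, nsmul_eq_mul]
      _ ≤ (n * n) * n := by
          refine mul_le_mul_of_nonneg_right ?_ hn.le
          have e2 : #((A1 ×ˢ A1).filter (fun x => bad x.1 x.2)) ≤ #A * #A := by
            refine (Finset.card_filter_le _ _).trans ?_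
            rw [Finset.card_product]
            exact Nat.mul_le_mul (Finset.card_le_card hA1A) (Finset.card_le_card hA1A)
          calc (#((A1 ×ˢ A1).filter (fun x => bad x.1 x.2)) : ℝ) ≤ (#A : ℝ) * #A := by
                exact_mod_cast e2
            _ = n * n := by rw [hA]
      _ = n ^ 3 := by ring
  -- a good vertex
  obtain ⟨b0, hb0, h5⟩ : ∃ b ∈ B, n ^ 2 ≤ 8 * K ^ 2 * ((#(Nb b) : ℝ) ^ 2 - 16 * K * bd b) := by
    by_contra hcon
    push Not at hcon
    have hBne : B.Nonempty := by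
      rw [← Finset.card_pos]
      have : (0 : ℝ) < #B := by rw [hB]; exact hn
      exact_mod_cast this
    have e1 := Finset.sum_lt_sum_of_nonempty hBne hcon
    rw [← Finset.mul_sum, Finset.sum_sub_distrib, ← Finset.mul_sum, Finset.sum_const,
      nsmul_eq_mul, hB] at e1
    nlinarith
  obtain ⟨A2, hA2⟩ : ∃ A2 : Finset α, A2 = Nb b0 := ⟨_, rfl⟩
  rw [← hA2] at h5
  have hA2A1 : A2 ⊆ A1 := by
    rw [hA2, hNb]
    exact Finset.filter_subset _ _
  have hbd0 : 0 ≤ bd b0 := by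
    rw [hbd]
    positivity
  have h6 : n ^ 2 ≤ 8 * K ^ 2 * (#A2 : ℝ) ^ 2 := by nlinarith [mul_nonneg (mul_nonneg (by norm_num : (0:ℝ) ≤ 16) hK0.le) hbd0, sq_nonneg K]
  have h7 : n ≤ 3 * K * #A2 := by
    have : n ^ 2 ≤ (3 * K * #A2) ^ 2 := by nlinarith [sq_nonneg (K * (#A2 : ℝ))]
    exact (pow_le_pow_iff_left₀ hn.le (by positivity) (by norm_num)).1 this
  have hA2pos : (0 : ℝ) < #A2 := by
    by_contra hcon
    have : (#A2 : ℝ) = 0 := le_antisymm (not_lt.1 hcon) (Nat.cast_nonneg _)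
    rw [this, mul_zero] at h7
    linarith
  have h8 : 16 * K * bd b0 ≤ (#A2 : ℝ) ^ 2 := by
    have : 0 ≤ 8 * K ^ 2 * ((#A2 : ℝ) ^ 2 - 16 * K * bd b0) := le_trans (by positivity) h5
    have h9 := nonneg_of_mul_nonneg_right this (by positivity)
    linarith
  -- vertices with few bad partners
  set A3 : Finset α := {a ∈ A2 | 8 * K * #{a' ∈ A2 | bad a a'} ≤ #A2} with hA3
  have h10 : (#A2 : ℝ) ≤ 2 * #A3 := by
    have e1 : (#A2 : ℝ) = #A3 + #(A2.filter (fun a => ¬ 8 * K * #{a' ∈ A2 | bad a a'} ≤ #A2)) := by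
      exact_mod_cast (Finset.card_filter_add_card_filter_not _).symm
    have e2 : (#(A2.filter (fun a => ¬ 8 * K * #{a' ∈ A2 | bad a a'} ≤ #A2)) : ℝ) * #A2 ≤
        8 * K * bd b0 := by
      have e3 : bd b0 = ∑ a ∈ A2, (#{a' ∈ A2 | bad a a'} : ℝ) := by
        rw [hbd, ← hA2, pair_count]
      rw [e3, ← nsmul_eq_mul, ← Finset.sum_const, Finset.mul_sum]
      refine le_trans (Finset.sum_le_sum fun a ha => ?_)
        (Finset.sum_le_sum_of_subset_of_nonneg (Finset.filter_subset _ _) fun a _ _ => ?_)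
      · exact (not_le.1 (Finset.mem_filter.1 ha).2).le
      · exact mul_nonneg (by linarith) (Nat.cast_nonneg _)
    have e5 : (#(A2.filter (fun a => ¬ 8 * K * #{a' ∈ A2 | bad a a'} ≤ #A2)) : ℝ) ≤ #A2 / 2 := by
      refine le_of_mul_le_mul_right ?_ hA2pos
      nlinarith
    linarith
  -- the other side
  set B' : Finset β := {b ∈ B | (#A2 : ℝ) ≤ 4 * K * #{a ∈ A2 | E a b}} with hB'
  have h11 : n ≤ 4 * K * #B' := by
    have e1 : (#A2 : ℝ) * n ≤ 2 * K * ∑ b ∈ B, (#{a ∈ A2 | E a b} : ℝ) := by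
      rw [← double_count, Finset.mul_sum, ← nsmul_eq_mul, ← Finset.sum_const]
      refine Finset.sum_le_sum fun a ha => ?_
      exact (Finset.mem_filter.1 (hA2A1 ha)).2
    have e2 : ∑ b ∈ B, (#{a ∈ A2 | E a b} : ℝ) = ∑ b ∈ B', (#{a ∈ A2 | E a b} : ℝ) +
        ∑ b ∈ B.filter (fun b => ¬ (#A2 : ℝ) ≤ 4 * K * #{a ∈ A2 | E a b}),
          (#{a ∈ A2 | E a b} : ℝ) := (Finset.sum_filter_add_sum_filter_not _ _ _).symm
    have e3 : 4 * K * ∑ b ∈ B.filter (fun b => ¬ (#A2 : ℝ) ≤ 4 * K * #{a ∈ A2 | E a b}),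
          (#{a ∈ A2 | E a b} : ℝ) ≤ n * #A2 := by
      rw [Finset.mul_sum]
      calc _ ≤ ∑ b ∈ B.filter (fun b => ¬ (#A2 : ℝ) ≤ 4 * K * #{a ∈ A2 | E a b}), (#A2 : ℝ) :=
            Finset.sum_le_sum fun b hb => (not_le.1 (Finset.mem_filter.1 hb).2).le
        _ = (#(B.filter (fun b => ¬ (#A2 : ℝ) ≤ 4 * K * #{a ∈ A2 | E a b})) : ℝ) * #A2 := by
            rw [Finset.sum_const, nsmul_eq_mul]
        _ ≤ n * #A2 := by
            refine mul_le_mul_of_nonneg_right ?_ hA2pos.le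
            rw [← hB]
            exact_mod_cast Finset.card_filter_le _ _
    have e4 : ∑ b ∈ B', (#{a ∈ A2 | E a b} : ℝ) ≤ #B' * #A2 := by
      rw [← nsmul_eq_mul, ← Finset.sum_const]
      refine Finset.sum_le_sum fun b _ => ?_
      exact_mod_cast Finset.card_filter_le _ _
    refine le_of_mul_le_mul_right ?_ hA2pos
    nlinarith
  refine ⟨A3, (Finset.filter_subset _ _).trans (hA2A1.trans hA1A), B', Finset.filter_subset _ _,
    ?_, h11, ?_⟩
  · nlinarith
  · intro a ha b hb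
    have ha1 := (Finset.mem_filter.1 ha).2
    have hb1 := (Finset.mem_filter.1 hb).2
    -- good partners
    set G : Finset α := {a' ∈ A2 | E a' b ∧ ¬ bad a a'} with hG
    have e1 : (#A2 : ℝ) ≤ 8 * K * #G := by
      have e2 : (#{a' ∈ A2 | E a' b} : ℝ) ≤ #G + #{a' ∈ A2 | bad a a'} := by
        have : #{a' ∈ A2 | E a' b} ≤ #(G ∪ {a' ∈ A2 | bad a a'}) := by
          refine Finset.card_le_card fun x hx => ?_
          obtain ⟨hx1, hx2⟩ := Finset.mem_filter.1 hx
          by_cases hbx : bad a x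
          · exact Finset.mem_union_right _ (Finset.mem_filter.2 ⟨hx1, hbx⟩)
          · exact Finset.mem_union_left _ (Finset.mem_filter.2 ⟨hx1, hx2, hbx⟩)
        exact_mod_cast this.trans (Finset.card_union_le _ _)
      nlinarith
    have e3 : (#G : ℝ) * n ≤ 128 * K ^ 3 * #{x ∈ B ×ˢ A | E a x.1 ∧ E x.2 x.1 ∧ E x.2 b} := by
      have e4 : ∑ a' ∈ G, (#{b' ∈ B | E a b' ∧ E a' b'} : ℝ) ≤ #{x ∈ B ×ˢ A | E a x.1 ∧ E x.2 x.1 ∧ E x.2 b} := by
        have e5 : ∑ a' ∈ G, #{b' ∈ B | E a b' ∧ E a' b'} ≤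
            #{x ∈ B ×ˢ A | E a x.1 ∧ E x.2 x.1 ∧ E x.2 b} := by
          rw [← Finset.card_sigma]
          refine Finset.card_le_card_of_injOn (fun y => (y.2, y.1)) ?_ ?_
          · rintro ⟨a', b'⟩ hy
            obtain ⟨hy1, hy2⟩ := Finset.mem_sigma.1 hy
            obtain ⟨hb'1, hb'2⟩ := Finset.mem_filter.1 hy2
            obtain ⟨hG1, hG2, -⟩ := Finset.mem_filter.1 hy1
            exact Finset.mem_coe.2 (Finset.mem_filter.2 ⟨Finset.mem_product.2
              ⟨hb'1, hA1A (hA2A1 hG1)⟩, hb'2.1, hb'2.2, hG2⟩)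
          · rintro ⟨a', b'⟩ _ ⟨a'', b''⟩ _ h
            have h' := Prod.mk.inj h
            obtain ⟨h1', h2'⟩ := h'
            cases h1'
            cases h2'
            rfl
        exact_mod_cast e5
      calc (#G : ℝ) * n = ∑ a' ∈ G, n := by rw [Finset.sum_const, nsmul_eq_mul]
        _ ≤ ∑ a' ∈ G, 128 * K ^ 3 * (#{b' ∈ B | E a b' ∧ E a' b'} : ℝ) :=
            Finset.sum_le_sum fun a' ha' =>
              not_lt.1 fun h => (Finset.mem_filter.1 ha').2.2 ((hbad _ _).2 h)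
        _ = 128 * K ^ 3 * ∑ a' ∈ G, (#{b' ∈ B | E a b' ∧ E a' b'} : ℝ) := by
            rw [Finset.mul_sum]
        _ ≤ _ := mul_le_mul_of_nonneg_left e4 (by positivity)
    calc n ^ 2 = n * n := sq n
      _ ≤ (3 * K * #A2) * n := mul_le_mul_of_nonneg_right h7 hn.le
      _ ≤ (3 * K * (8 * K * #G)) * n := by
          refine mul_le_mul_of_nonneg_right ?_ hn.le
          exact mul_le_mul_of_nonneg_left e1 (by positivity)
      _ = 24 * K ^ 2 * ((#G : ℝ) * n) := by ring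
      _ ≤ 24 * K ^ 2 * (128 * K ^ 3 * #{x ∈ B ×ˢ A | E a x.1 ∧ E x.2 x.1 ∧ E x.2 b}) :=
          mul_le_mul_of_nonneg_left e3 (by positivity)
      _ = _ := by ring

end graph

section group

variable {H : Type} [Group H] [DecidableEq H]

/-- the number of the quadruples in `A` with `a / b = c / d` -/
def energy (A : Finset H) : ℕ :=
  #{x ∈ (A ×ˢ A) ×ˢ (A ×ˢ A) | x.1.1 / x.1.2 = x.2.1 / x.2.2}

/-- the number of the representations of `g` -/
def rep (A : Finset H) (g : H) : ℕ := #{x ∈ A ×ˢ A | x.1 / x.2 = g}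

theorem energy_eq (A : Finset H) : energy A = ∑ x ∈ A ×ˢ A, rep A (x.1 / x.2) := by
  unfold energy rep
  rw [Finset.card_filter, Finset.sum_product]
  refine Finset.sum_congr rfl fun x _ => ?_
  rw [Finset.card_filter]
  refine Finset.sum_congr rfl fun y _ => ?_
  simp only [eq_comm]

theorem rep_le (A : Finset H) (g : H) : rep A g ≤ #A := by
  refine Finset.card_le_card_of_injOn Prod.fst ?_ ?_
  · intro x hx
    exact (Finset.mem_product.1 (Finset.mem_filter.1 hx).1).1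
  · intro x hx y hy hxy
    have hx' := (Finset.mem_filter.1 hx).2
    have hy' := (Finset.mem_filter.1 hy).2
    have h1 : x.1 = y.1 := hxy
    refine Prod.ext h1 ?_
    rw [← hy', h1, div_right_inj] at hx'
    exact hx'

theorem energy_le (A : Finset H) : energy A ≤ #A ^ 3 := by
  rw [energy_eq]
  calc _ ≤ ∑ x ∈ A ×ˢ A, #A := Finset.sum_le_sum fun x _ => rep_le A _
    _ = #A ^ 3 := by rw [Finset.sum_const, Finset.card_product, smul_eq_mul]; ring

open Classical in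
theorem bsg (A : Finset H) (hA : A.Nonempty) (κ : ℝ) (hκ : 1 ≤ κ)
    (hE : (#A : ℝ) ^ 3 ≤ κ * energy A) : ∃ A' ⊆ A, (#A : ℝ) ≤ 12 * κ * #A' ∧
      (#(A' / A') : ℝ) ≤ 4 * 3072 ^ 2 * (2 * κ) ^ 17 * #A := by
  obtain ⟨K, hKκ⟩ : ∃ K : ℝ, K = 2 * κ := ⟨_, rfl⟩
  have hK1 : 1 ≤ K := by linarith
  have hK0 : 0 < K := by linarith
  obtain ⟨n, hn⟩ : ∃ n : ℝ, n = #A := ⟨_, rfl⟩
  have hn0 : 0 < n := by
    rw [hn]
    exact_mod_cast Finset.card_pos.2 hA
  rw [← hn] at hE
  -- popular quotients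
  obtain ⟨P, hP⟩ : ∃ P : H → Prop, ∀ g, P g ↔ n ≤ K * rep A g := ⟨_, fun _ => Iff.rfl⟩
  have hedges : n ^ 2 ≤ K * ∑ a ∈ A, (#{b ∈ A | P (a / b)} : ℝ) := by
    have h1 : ∑ a ∈ A, (#{b ∈ A | P (a / b)} : ℝ) = #{x ∈ A ×ˢ A | P (x.1 / x.2)} := by
      rw [Finset.card_filter, Finset.sum_product]
      push_cast
      refine Finset.sum_congr rfl fun a _ => ?_
      rw [Finset.card_filter]
      push_cast
      rfl
    have h2 : (energy A : ℝ) = ∑ x ∈ (A ×ˢ A).filter (fun x => P (x.1 / x.2)),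
        (rep A (x.1 / x.2) : ℝ) + ∑ x ∈ (A ×ˢ A).filter (fun x => ¬ P (x.1 / x.2)),
        (rep A (x.1 / x.2) : ℝ) := by
      rw [energy_eq, Finset.sum_filter_add_sum_filter_not]
      push_cast
      rfl
    have h3 : ∑ x ∈ (A ×ˢ A).filter (fun x => P (x.1 / x.2)), (rep A (x.1 / x.2) : ℝ) ≤
        #{x ∈ A ×ˢ A | P (x.1 / x.2)} * n := by
      rw [← nsmul_eq_mul, ← Finset.sum_const]
      refine Finset.sum_le_sum fun x _ => ?_
      rw [hn]
      exact_mod_cast rep_le A _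
    have h4 : K * ∑ x ∈ (A ×ˢ A).filter (fun x => ¬ P (x.1 / x.2)), (rep A (x.1 / x.2) : ℝ) ≤
        n ^ 3 := by
      rw [Finset.mul_sum]
      calc _ ≤ ∑ x ∈ (A ×ˢ A).filter (fun x => ¬ P (x.1 / x.2)), n := by
            refine Finset.sum_le_sum fun x hx => ?_
            have h5 := (Finset.mem_filter.1 hx).2
            rw [hP, not_le] at h5
            exact h5.le
        _ = (#((A ×ˢ A).filter (fun x => ¬ P (x.1 / x.2))) : ℝ) * n := by
            rw [Finset.sum_const, nsmul_eq_mul]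
        _ ≤ (n * n) * n := by
            refine mul_le_mul_of_nonneg_right ?_ hn0.le
            have h6 : #((A ×ˢ A).filter (fun x => ¬ P (x.1 / x.2))) ≤ #A * #A := by
              refine (Finset.card_filter_le _ _).trans ?_
              rw [Finset.card_product]
            rw [hn]
            exact_mod_cast h6
        _ = n ^ 3 := by ring
    rw [h1]
    have h7 : n ^ 3 * 2 ≤ K * energy A := by rw [hKκ]; linarith
    refine le_of_mul_le_mul_right ?_ hn0
    rw [h2, mul_add] at h7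
    nlinarith
  obtain ⟨A', hA', B', hB', h1, h2, h3⟩ := paths A A (fun a b => P (a / b)) K n hK1 hn0 hn.symm
    hn.symm hedges
  refine ⟨A', hA', ?_, ?_⟩
  · rw [← hn]
    calc n ≤ 6 * K * #A' := h1
      _ = 12 * κ * #A' := by rw [hKκ]; ring
  -- the number of popular quotients
  have hPc : (#((A / A).filter P) : ℝ) ≤ K * n := by
    have h4 : ∑ g ∈ (A / A).filter P, (rep A g : ℝ) ≤ n * n := by
      have h5 : ∑ g ∈ (A / A).filter P, rep A g ≤ #A * #A := by
        unfold rep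
        rw [← Finset.card_product A A]
        refine le_trans (Finset.sum_le_sum_of_subset (Finset.filter_subset _ _)) ?_
        rw [← Finset.card_eq_sum_card_fiberwise (f := fun x : H × H => x.1 / x.2)]
        intro x hx
        have := Finset.mem_product.1 hx
        exact Finset.div_mem_div this.1 this.2
      rw [hn]
      exact_mod_cast h5
    have h6 : (#((A / A).filter P) : ℝ) * n ≤ K * ∑ g ∈ (A / A).filter P, (rep A g : ℝ) := by
      rw [← nsmul_eq_mul, ← Finset.sum_const, Finset.mul_sum]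
      exact Finset.sum_le_sum fun g hg => (hP g).1 (Finset.mem_filter.1 hg).2
    refine le_of_mul_le_mul_right ?_ hn0
    nlinarith
  -- few quotients
  have h4 : (#(A' / B') : ℝ) ≤ 3072 * K ^ 8 * n := by
    let T : Finset (H × H × H) := ((A / A).filter P) ×ˢ ((A / A).filter P) ×ˢ ((A / A).filter P)
    have hT : (#T : ℝ) ≤ (K * n) ^ 3 := by
      have : (#T : ℝ) = (#((A / A).filter P) : ℝ) ^ 3 := by
        simp only [T, Finset.card_product]
        push_cast
        ring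
      rw [this]
      exact pow_le_pow_left₀ (Nat.cast_nonneg _) hPc 3
    have h5 : (#(A' / B') : ℝ) * n ^ 2 ≤ 3072 * K ^ 5 * #T := by
      have h6 : ∑ g ∈ A' / B', #{t ∈ T | t.1 / t.2.1 * t.2.2 = g} ≤ #T := by
        rw [← Finset.card_sigma]
        refine Finset.card_le_card_of_injOn (fun y => y.2) ?_ ?_
        · rintro ⟨g, t⟩ hy
          exact (Finset.mem_filter.1 (Finset.mem_sigma.1 hy).2).1
        · rintro ⟨g, t⟩ hy ⟨g', t'⟩ hy' h
          have e1 := (Finset.mem_filter.1 (Finset.mem_sigma.1 hy).2).2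
          have e2 := (Finset.mem_filter.1 (Finset.mem_sigma.1 hy').2).2
          dsimp only at h e1 e2
          subst h
          rw [e1] at e2
          subst e2
          rfl
      have h7 : ∀ g ∈ A' / B', n ^ 2 ≤ 3072 * K ^ 5 * #{t ∈ T | t.1 / t.2.1 * t.2.2 = g} := by
        intro g hg
        obtain ⟨a, ha, b, hb, rfl⟩ := Finset.mem_div.1 hg
        refine (h3 a ha b hb).trans (mul_le_mul_of_nonneg_left ?_ (by positivity))
        have h8 : #{x ∈ A ×ˢ A | P (a / x.1) ∧ P (x.2 / x.1) ∧ P (x.2 / b)} ≤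
            #{t ∈ T | t.1 / t.2.1 * t.2.2 = a / b} := by
          refine Finset.card_le_card_of_injOn (fun x => (a / x.1, x.2 / x.1, x.2 / b)) ?_ ?_
          · intro x hx
            obtain ⟨hx1, hx2, hx3, hx4⟩ := Finset.mem_filter.1 hx
            obtain ⟨hx5, hx6⟩ := Finset.mem_product.1 hx1
            refine Finset.mem_coe.2 (Finset.mem_filter.2 ⟨?_, ?_⟩)
            · simp only [T, Finset.mem_product, Finset.mem_filter]
              exact ⟨⟨Finset.div_mem_div (hA' ha) hx5, hx2⟩, ⟨Finset.div_mem_div hx6 hx5, hx3⟩,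
                ⟨Finset.div_mem_div hx6 (hB' hb), hx4⟩⟩
            · change a / x.1 / (x.2 / x.1) * (x.2 / b) = a / b
              simp
          · intro x _ y _ hxy
            have e1 := (Prod.mk.inj hxy).1
            have e2 := (Prod.mk.inj (Prod.mk.inj hxy).2).1
            have e3 : x.1 = y.1 := by
              rw [div_right_inj] at e1
              exact e1
            rw [e3, div_left_inj] at e2
            exact Prod.ext e3 e2
        exact_mod_cast h8
      calc (#(A' / B') : ℝ) * n ^ 2 = ∑ g ∈ A' / B', n ^ 2 := by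
            rw [Finset.sum_const, nsmul_eq_mul]
        _ ≤ ∑ g ∈ A' / B', 3072 * K ^ 5 * (#{t ∈ T | t.1 / t.2.1 * t.2.2 = g} : ℝ) :=
            Finset.sum_le_sum h7
        _ = 3072 * K ^ 5 * ∑ g ∈ A' / B', (#{t ∈ T | t.1 / t.2.1 * t.2.2 = g} : ℝ) := by
            rw [Finset.mul_sum]
        _ ≤ _ := by
            refine mul_le_mul_of_nonneg_left ?_ (by positivity)
            exact_mod_cast h6
    refine le_of_mul_le_mul_right (a := n ^ 2) ?_ (by positivity)
    calc _ ≤ 3072 * K ^ 5 * #T := h5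
      _ ≤ 3072 * K ^ 5 * (K * n) ^ 3 := mul_le_mul_of_nonneg_left hT (by positivity)
      _ = _ := by ring
  have h5 : (#(A' / A') : ℝ) * #B' ≤ #(A' / B') * #(A' / B') := by
    exact_mod_cast Finset.ruzsa_triangle_inequality_div_div_div A' B' A'
  have hB0 : (0 : ℝ) < #B' := by
    by_contra hcon
    have : (#B' : ℝ) = 0 := le_antisymm (not_lt.1 hcon) (Nat.cast_nonneg _)
    rw [this, mul_zero] at h2
    linarith
  rw [← hn, ← hKκ]
  refine le_of_mul_le_mul_right ?_ hB0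
  calc (#(A' / A') : ℝ) * #B' ≤ #(A' / B') * #(A' / B') := h5
    _ ≤ (3072 * K ^ 8 * n) * (3072 * K ^ 8 * n) :=
        mul_le_mul h4 h4 (Nat.cast_nonneg _) (by positivity)
    _ = 3072 ^ 2 * K ^ 16 * n * n := by ring
    _ ≤ 3072 ^ 2 * K ^ 16 * n * (4 * K * #B') :=
        mul_le_mul_of_nonneg_left h2 (by positivity)
    _ = _ := by ring

end group

end Pool.Agent.K6.H47.GR
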