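import Pool.Agent.K6.H47.GR.Lin
import Pool.Agent.TH717.GO.Hyb2

set_option autoImplicit false

/-! # On a rational curve there is no growth -/

namespace Pool.Agent.K6.H47.GR

open Finset Matrix Pool.Agent.TH717.GO Pool.Agent.H533R3.SL
open scoped Pointwise

variable {n : ℕ}

/-- a rational curve over `ℂ` gives one over a number field -/
theorem curve_nf {k : Type} [Field k] [NumberField k] (σ : k →+* ℂ)
    (FF : Set (MvPolynomial (Fin (n + 1)) k)) (h : ¬ NoRatC σ FF) :
    ∃ (N : ℕ) (K : Type) (_ : Field K) (_ : NumberField K) (_ : Algebra k K)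
        (w : Fin N → Fin (n + 1) → K),
        (∀ F ∈ FF, MvPolynomial.aeval (cur w (fun j => (j : ℕ))) F = 0) ∧
        ∃ i1 i2 a b, (cur w (fun j => (j : ℕ)) i1).eval a * (cur w (fun j => (j : ℕ)) i2).eval b ≠
          (cur w (fun j => (j : ℕ)) i2).eval a * (cur w (fun j => (j : ℕ)) i1).eval b := by
  classical
  unfold NoRatC at h
  push Not at h
  obtain ⟨q, hq, i, j, a, b, hab⟩ := h
  let _ : Algebra k ℂ := σ.toAlgebra
  let sh : Polynomial ℂ →+* Polynomial ℂ := Polynomial.compRingHom (Polynomial.X + Polynomial.C (b - 1))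
  let p : Fin (n + 1) → Polynomial ℂ := fun i => sh (q i)
  have hpe : ∀ i (t : ℂ), (p i).eval t = (q i).eval (t + (b - 1)) := by
    intro i t
    show ((q i).comp _).eval t = _
    rw [Polynomial.eval_comp, Polynomial.eval_add, Polynomial.eval_X, Polynomial.eval_C]
  have hp : ∀ F ∈ FF, MvPolynomial.aeval p F = 0 := by
    intro F hF
    have h1 := congrArg sh (hq F hF)
    rw [map_zero, MvPolynomial.hom_eval₂] at h1
    rw [MvPolynomial.aeval_def]
    have h2 : sh.comp (Polynomial.C.comp σ) = algebraMap k (Polynomial ℂ) := by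
      refine RingHom.ext fun x => ?_
      show (Polynomial.C (σ x)).comp _ = _
      rw [Polynomial.C_comp, Polynomial.algebraMap_apply]
      rfl
    rw [← h2]
    exact h1
  set N : ℕ := Finset.univ.sup (fun i => (p i).natDegree) + 1 with hN
  have hNc : ∀ i m, N ≤ m → (p i).coeff m = 0 := by
    intro i m hm
    apply Polynomial.coeff_eq_zero_of_natDegree_lt
    have := Finset.le_sup (f := fun i => (p i).natDegree) (Finset.mem_univ i)
    omega
  obtain ⟨K, iK, iN, iAK, w, h1, h2, -⟩ := Pool.Agent.TH409.SH.specialise k ℂ p FF hp N hNc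
    ⟨i, j, fun heq => hab (by
      have h4 := congrArg (Polynomial.eval (a - (b - 1))) heq
      rw [Polynomial.eval_mul, Polynomial.eval_mul, Polynomial.eval_C, Polynomial.eval_C, hpe, hpe,
        hpe, hpe] at h4
      simpa using h4)⟩ 1 (by rw [map_one]; exact one_ne_zero)
  exact ⟨N, K, iK, iN, iAK, w, h1, Pool.Agent.TH409.SH.nonconst_of _ h2⟩

theorem cur_natDegree {K : Type} [Field K] {N : ℕ} (w : Fin N → Fin (n + 1) → K)
    (i : Fin (n + 1)) : (cur w (fun j => (j : ℕ)) i).natDegree ≤ N := by
  unfold cur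
  refine Polynomial.natDegree_sum_le_of_forall_le _ _ fun j _ => ?_
  refine (Polynomial.natDegree_C_mul_X_pow_le _ _).trans ?_
  exact j.2.le

theorem orb_cur {K : Type} [Field K] [CharZero K] {N : ℕ} (w : Fin N → Fin (n + 1) → K)
    (m : Multiplicative ℤ) : orb (M0 w) (dia K N) (fun _ => 1) m =
      fun i => (cur w (fun j => (j : ℕ)) i).eval ((2 : K) ^ (Multiplicative.toAdd m)) := by
  funext i
  show ∑ j, M0 w i j * ((Matrix.diagonal fun j : Fin N =>
    ((2 : K) ^ (Multiplicative.toAdd m)) ^ (j : ℕ)).mulVec fun _ => 1) j = _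
  show _ = (cur w (fun j : Fin N => (j : ℕ)) i).eval _
  unfold cur
  rw [Polynomial.eval_finsetSum]
  refine Finset.sum_congr rfl fun j _ => ?_
  rw [Matrix.mulVec_diagonal, Polynomial.eval_mul, Polynomial.eval_C, Polynomial.eval_pow,
    Polynomial.eval_X, mul_one]
  rfl

open Classical in
/-- There are arbitrarily large sets without growth on a rational curve. -/
theorem no_growth {K : Type} [Field K] [CharZero K] {N : ℕ}
    (q : Fin (n + 1) → Polynomial K) (hdeg : ∀ i, (q i).natDegree ≤ N)
    (hnc : ∃ i1 i2 a b, (q i1).eval a * (q i2).eval b ≠ (q i2).eval a * (q i1).eval b)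
    (x : Multiplicative ℤ → Fin (n + 1) → K)
    (hx : ∀ m, x m = fun i => (q i).eval ((2 : K) ^ (Multiplicative.toAdd m))) (L : ℕ) :
    ∃ A : Finset (Multiplicative ℤ), (∀ a ∈ A, x a ≠ 0) ∧
      (∀ a ∈ A, #{b ∈ A | ∃ s : K, x b = s • x a} ≤ N) ∧ L ≤ #A + N ∧ #(A / A) ≤ 2 * L + 1 := by
  have h2inj : Function.Injective (fun m : ℤ => (2 : K) ^ m) := by
    intro a b hab
    have h1 : (((2 : ℚ) ^ a : ℚ) : K) = (((2 : ℚ) ^ b : ℚ) : K) := by
      push_cast
      exact hab
    exact zpow_right_injective₀ (by norm_num) (by norm_num) (Rat.cast_injective h1)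
  let em : ℕ → Multiplicative ℤ := fun m => Multiplicative.ofAdd (m : ℤ)
  have hem : Function.Injective em := fun a b h => by
    have := Multiplicative.ofAdd.injective h
    exact_mod_cast this
  -- few parameters are roots of a polynomial
  have hroot : ∀ (P : Polynomial K), P ≠ 0 → P.natDegree ≤ N → ∀ S : Finset (Multiplicative ℤ),
      (∀ b ∈ S, P.eval ((2 : K) ^ (Multiplicative.toAdd b)) = 0) → #S ≤ N := by
    intro P hP hPd S hS
    have h1 : #S ≤ #P.roots.toFinset := by
      refine Finset.card_le_card_of_injOn (fun b => (2 : K) ^ (Multiplicative.toAdd b)) ?_ ?_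
      · intro b hb
        simpa [hP] using hS b hb
      · intro b _ c _ hbc
        exact Multiplicative.toAdd.injective (h2inj hbc)
    exact h1.trans ((Multiset.toFinset_card_le _).trans ((Polynomial.card_roots' P).trans hPd))
  obtain ⟨i1, i2, a0, b0, hab⟩ := hnc
  refine ⟨((Finset.range L).image em).filter (fun a => x a ≠ 0), ?_, ?_, ?_, ?_⟩
  · intro a ha
    exact (Finset.mem_filter.1 ha).2
  · intro a ha
    have ha0 : x a ≠ 0 := (Finset.mem_filter.1 ha).2
    obtain ⟨i0, hi0⟩ := Function.ne_iff.1 ha0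
    rw [hx] at hi0
    set α : K := (2 : K) ^ (Multiplicative.toAdd a) with hα
    have hi0' : (q i0).eval α ≠ 0 := hi0
    obtain ⟨j, hj⟩ : ∃ j, q j * Polynomial.C ((q i0).eval α) -
        q i0 * Polynomial.C ((q j).eval α) ≠ 0 := by
      by_contra hcon
      push Not at hcon
      have hrel : ∀ j t, (q j).eval t * (q i0).eval α = (q i0).eval t * (q j).eval α := by
        intro j t
        have := congrArg (Polynomial.eval t) (hcon j)
        rw [Polynomial.eval_sub, Polynomial.eval_mul, Polynomial.eval_mul, Polynomial.eval_C,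
          Polynomial.eval_C, Polynomial.eval_zero, sub_eq_zero] at this
        exact this
      apply hab
      apply mul_right_cancel₀ (mul_ne_zero hi0' hi0')
      calc (q i1).eval a0 * (q i2).eval b0 * ((q i0).eval α * (q i0).eval α)
          = ((q i1).eval a0 * (q i0).eval α) * ((q i2).eval b0 * (q i0).eval α) := by ring
        _ = ((q i0).eval a0 * (q i1).eval α) * ((q i0).eval b0 * (q i2).eval α) := by
            rw [hrel, hrel]
        _ = ((q i0).eval a0 * (q i2).eval α) * ((q i0).eval b0 * (q i1).eval α) := by ring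
        _ = ((q i2).eval a0 * (q i0).eval α) * ((q i1).eval b0 * (q i0).eval α) := by
            rw [hrel, hrel]
        _ = (q i2).eval a0 * (q i1).eval b0 * ((q i0).eval α * (q i0).eval α) := by ring
    refine hroot _ hj ?_ _ ?_
    · refine (Polynomial.natDegree_sub_le _ _).trans (max_le ?_ ?_)
      · exact (Polynomial.natDegree_mul_C_le _ _).trans (hdeg j)
      · exact (Polynomial.natDegree_mul_C_le _ _).trans (hdeg i0)
    · intro b hb
      obtain ⟨s, hs⟩ := (Finset.mem_filter.1 hb).2
      rw [hx, hx] at hs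
      have hsi : ∀ i, (q i).eval ((2 : K) ^ (Multiplicative.toAdd b)) = s * (q i).eval α :=
        fun i => congrFun hs i
      rw [Polynomial.eval_sub, Polynomial.eval_mul, Polynomial.eval_mul, Polynomial.eval_C,
        Polynomial.eval_C, hsi, hsi]
      ring
  · -- the zeros
    have h1 : #(((Finset.range L).image em).filter (fun a => ¬ x a ≠ 0)) ≤ N := by
      obtain ⟨j, hj⟩ : ∃ j, q j ≠ 0 := by
        by_contra hcon
        push Not at hcon
        apply hab
        rw [hcon, hcon]
      refine hroot (q j) hj (hdeg j) _ ?_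
      intro b hb
      have h2 := (Finset.mem_filter.1 hb).2
      rw [not_not, hx] at h2
      exact congrFun h2 j
    have h3 := Finset.card_filter_add_card_filter_not (s := (Finset.range L).image em)
      (fun a => x a ≠ 0)
    rw [Finset.card_image_of_injective _ hem, Finset.card_range] at h3
    omega
  · have h1 : (((Finset.range L).image em).filter (fun a => x a ≠ 0)) /
        (((Finset.range L).image em).filter (fun a => x a ≠ 0)) ⊆
        (Finset.Icc (-(L : ℤ)) L).image Multiplicative.ofAdd := by
      intro g hg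
      obtain ⟨a, ha, b, hb, rfl⟩ := Finset.mem_div.1 hg
      obtain ⟨a', ha', rfl⟩ := Finset.mem_image.1 (Finset.mem_filter.1 ha).1
      obtain ⟨b', hb', rfl⟩ := Finset.mem_image.1 (Finset.mem_filter.1 hb).1
      rw [Finset.mem_range] at ha' hb'
      refine Finset.mem_image.2 ⟨(a' : ℤ) - b', ?_, rfl⟩
      rw [Finset.mem_Icc]
      omega
    refine (Finset.card_le_card h1).trans (Finset.card_image_le.trans ?_)
    rw [Int.card_Icc]
    omega

end Pool.Agent.K6.H47.GR
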