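import Mathlib

set_option autoImplicit false

/-! # Growth of finite subsets of a group on which functions of a finite dimensional space vanish -/

namespace Pool.Agent.K6.H47.GR

open Finset
open scoped Pointwise

variable {K : Type} [Field K] {H : Type} [Group H]

/-- translation of functions -/
def tr (g : H) : (H → K) →ₐ[K] (H → K) where
  toFun f := fun h => f (g * h)
  map_one' := rfl
  map_mul' _ _ := rfl
  map_zero' := rfl
  map_add' _ _ := rfl
  commutes' _ := rfl

@[simp] theorem tr_apply (g : H) (f : H → K) (h : H) : tr g f h = f (g * h) := rfl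

theorem tr_tr (g g' : H) (f : H → K) : tr g (tr g' f) = tr (g' * g) f := by
  funext h
  simp [mul_assoc]

theorem tr_one (f : H → K) : tr (1 : H) f = f := by
  funext h
  simp

/-- the functions in `W` which vanish on `A` -/
def van (W : Submodule K (H → K)) (A : Set H) : Submodule K (H → K) where
  carrier := {f | f ∈ W ∧ ∀ a ∈ A, f a = 0}
  zero_mem' := ⟨W.zero_mem, fun _ _ => rfl⟩
  add_mem' := fun {f g} hf hg => ⟨W.add_mem hf.1 hg.1, fun a ha => by
    rw [Pi.add_apply, hf.2 a ha, hg.2 a ha, add_zero]⟩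
  smul_mem' := fun c f hf => ⟨W.smul_mem c hf.1, fun a ha => by
    rw [Pi.smul_apply, hf.2 a ha, smul_zero]⟩

omit [Group H] in
theorem mem_van {W : Submodule K (H → K)} {A : Set H} {f : H → K} :
    f ∈ van W A ↔ f ∈ W ∧ ∀ a ∈ A, f a = 0 := Iff.rfl

omit [Group H] in
theorem van_le (W : Submodule K (H → K)) (A : Set H) : van W A ≤ W := fun _ h => h.1

omit [Group H] in
theorem van_anti (W : Submodule K (H → K)) {A B : Set H} (h : A ⊆ B) : van W B ≤ van W A :=
  fun _ hf => ⟨hf.1, fun a ha => hf.2 a (h ha)⟩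

/-- the stabiliser of a space of functions -/
def stab (I : Submodule K (H → K)) : Subgroup H where
  carrier := {g | ∀ f ∈ I, tr g f ∈ I ∧ tr g⁻¹ f ∈ I}
  one_mem' := fun f hf => by
    rw [inv_one, tr_one]
    exact ⟨hf, hf⟩
  mul_mem' := fun {g g'} hg hg' f hf => by
    rw [mul_inv_rev, ← tr_tr, ← tr_tr]
    exact ⟨(hg' _ (hg f hf).1).1, (hg _ (hg' f hf).2).2⟩
  inv_mem' := fun {g} hg f hf => by
    rw [inv_inv]
    exact (hg f hf).symm

theorem mem_stab {I : Submodule K (H → K)} {g : H} :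
    g ∈ stab I ↔ ∀ f ∈ I, tr g f ∈ I ∧ tr g⁻¹ f ∈ I := Iff.rfl

/-- if `A ∩ g⁻¹ A` has the same rank as `A`, then `g` is in the stabiliser -/
theorem mem_stab_of_rank (W : Submodule K (H → K)) [FiniteDimensional K W]
    (hW : ∀ g : H, ∀ f ∈ W, tr g f ∈ W) (A : Set H) (g : H)
    (h : Module.finrank K (van W {a | a ∈ A ∧ g * a ∈ A}) ≤ Module.finrank K (van W A)) :
    g ∈ stab (van W A) := by
  have hfin : ∀ S : Set H, FiniteDimensional K (van W S) := fun S =>
    Submodule.finiteDimensional_of_le (van_le W S)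
  have key : ∀ (g : H), Module.finrank K (van W {a | a ∈ A ∧ g * a ∈ A}) ≤
      Module.finrank K (van W A) → ∀ f ∈ van W A, tr g f ∈ van W A := by
    intro g hg f hf
    have h1 : van W A = van W {a | a ∈ A ∧ g * a ∈ A} := by
      have := hfin {a | a ∈ A ∧ g * a ∈ A}
      exact Submodule.eq_of_le_of_finrank_le (van_anti W fun a ha => ha.1) hg
    rw [h1]
    exact ⟨hW g f hf.1, fun a ha => hf.2 _ ha.2⟩
  refine fun f hf => ⟨key g h f hf, key g⁻¹ ?_ f hf⟩
  refine le_trans ?_ h
  -- translation by g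
  have h2 : (van W {a | a ∈ A ∧ g⁻¹ * a ∈ A}).map (tr (K := K) g).toLinearMap ≤
      van W {a | a ∈ A ∧ g * a ∈ A} := by
    rintro _ ⟨f, hf, rfl⟩
    refine ⟨hW g f hf.1, fun a ha => hf.2 _ ⟨ha.2, ?_⟩⟩
    rw [inv_mul_cancel_left]
    exact ha.1
  have h3 : Function.Injective (tr (K := K) g).toLinearMap := by
    intro f f' hff
    have h4 : tr g f = tr g f' := hff
    have h5 : tr g⁻¹ (tr g f) = tr g⁻¹ (tr g f') := by rw [h4]
    rw [tr_tr, tr_tr, mul_inv_cancel, tr_one, tr_one] at h5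
    exact h5
  have := hfin {a | a ∈ A ∧ g * a ∈ A}
  rw [(Submodule.equivMapOfInjective (tr (K := K) g).toLinearMap h3
    (van W {a | a ∈ A ∧ g⁻¹ * a ∈ A})).finrank_eq]
  exact Submodule.finrank_mono h2

section count

variable [DecidableEq H]

/-- pairs with quotient in a subgroup, and the other pairs -/
theorem step_count (A : Finset H) (H' : Subgroup H) (n m : ℕ)
    (hn : ∀ a ∈ A, ∀ A' : Finset H, A' ⊆ A → (∀ b ∈ A', b / a ∈ H') → #A' ≤ n)
    (hm : ∀ g : H, g ∉ H' → #{a ∈ A | g * a ∈ A} ≤ m) :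
    #A * #A ≤ n * #A + m * #(A / A) := by
  classical
  rw [← Finset.card_product, ← Finset.card_filter_add_card_filter_not
    (fun x : H × H => x.2 / x.1 ∈ H')]
  refine Nat.add_le_add ?_ ?_
  · refine Finset.card_le_mul_card_image_of_maps_to (f := Prod.fst) (t := A) ?_ n ?_
    · intro x hx
      exact (Finset.mem_product.1 (Finset.mem_filter.1 hx).1).1
    · intro a ha
      have h1 : #({x ∈ {x ∈ A ×ˢ A | x.2 / x.1 ∈ H'} | x.1 = a}) ≤ #{b ∈ A | b / a ∈ H'} := by
        refine Finset.card_le_card_of_injOn Prod.snd ?_ ?_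
        · intro x hx
          have hx' := Finset.mem_filter.1 hx
          have hx2 := Finset.mem_filter.1 hx'.1
          refine Finset.mem_coe.2 (Finset.mem_filter.2 ⟨(Finset.mem_product.1 hx2.1).2, ?_⟩)
          rw [← hx'.2]
          exact hx2.2
        · intro x hx y hy hxy
          have hx' := Finset.mem_filter.1 hx
          have hy' := Finset.mem_filter.1 hy
          exact Prod.ext (hx'.2.trans hy'.2.symm) hxy
      exact h1.trans (hn a ha _ (Finset.filter_subset _ _) fun b hb => (Finset.mem_filter.1 hb).2)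
  · refine Finset.card_le_mul_card_image_of_maps_to (f := fun x : H × H => x.2 / x.1)
      (t := A / A) ?_ m ?_
    · intro x hx
      have h1 := Finset.mem_product.1 (Finset.mem_filter.1 hx).1
      exact Finset.div_mem_div h1.2 h1.1
    · intro g _
      by_cases hg : g ∈ H'
      · rw [Finset.card_eq_zero.2, ]
        · exact Nat.zero_le _
        · rw [Finset.filter_eq_empty_iff]
          intro x hx hxg
          exact (Finset.mem_filter.1 hx).2 (by rw [hxg]; exact hg)
      · refine le_trans ?_ (hm g hg)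
        refine Finset.card_le_card_of_injOn Prod.fst ?_ ?_
        · intro x hx
          have hx' := Finset.mem_filter.1 hx
          have hx2 := Finset.mem_product.1 (Finset.mem_filter.1 hx'.1).1
          have h3 : x.2 / x.1 = g := hx'.2
          refine Finset.mem_coe.2 (Finset.mem_filter.2 ⟨hx2.1, ?_⟩)
          rw [← h3, div_mul_cancel]
          exact hx2.2
        · intro x hx y hy hxy
          have hx' : x.2 / x.1 = g := (Finset.mem_filter.1 hx).2
          have hy' : y.2 / y.1 = g := (Finset.mem_filter.1 hy).2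
          have h1 : x.1 = y.1 := hxy
          refine Prod.ext h1 ?_
          rw [← div_mul_cancel x.2 x.1, ← div_mul_cancel y.2 y.1, hx', hy', h1]

/-- the arithmetic of the induction -/
theorem step_arith {a B μ L m R : ℕ} (hB : 1 ≤ B) (ha : 1 ≤ a) (haL : a ≤ L)
    (h : a * a ≤ B * μ * a + m * L) (hm : m ^ 2 ^ R ≤ (2 * B) ^ 2 ^ R * μ * L ^ (2 ^ R - 1)) :
    a ^ 2 ^ (R + 1) ≤ (2 * B) ^ 2 ^ (R + 1) * μ * L ^ (2 ^ (R + 1) - 1) := by
  have hR : 1 ≤ 2 ^ R := Nat.one_le_two_pow
  rcases le_total (m * L) (B * μ * a) with hc | hc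
  · have h1 : a ≤ 2 * B * μ := by
      have h2 : a * a ≤ (2 * B * μ) * a := by nlinarith
      exact Nat.le_of_mul_le_mul_right h2 (by omega)
    have h3 : a ^ 2 ^ (R + 1) = a * a ^ (2 ^ (R + 1) - 1) := by
      rw [← pow_succ', Nat.sub_add_cancel Nat.one_le_two_pow]
    rw [h3]
    calc a * a ^ (2 ^ (R + 1) - 1) ≤ (2 * B * μ) * L ^ (2 ^ (R + 1) - 1) :=
          Nat.mul_le_mul h1 (Nat.pow_le_pow_left haL _)
      _ ≤ (2 * B) ^ 2 ^ (R + 1) * μ * L ^ (2 ^ (R + 1) - 1) := by
          refine Nat.mul_le_mul_right _ (Nat.mul_le_mul_right _ ?_)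
          exact Nat.le_self_pow (by positivity) _
  · have h1 : a * a ≤ 2 * (m * L) := by omega
    have h2 : a ^ 2 ^ (R + 1) = (a * a) ^ 2 ^ R := by
      rw [pow_succ, mul_comm (2 ^ R) 2, pow_mul, sq]
    have h4 : L ^ 2 ^ R * L ^ (2 ^ R - 1) = L ^ (2 ^ (R + 1) - 1) := by
      rw [← pow_add]
      congr 1
      rw [pow_succ]
      omega
    have h5 : 2 ^ 2 ^ R * (2 * B) ^ 2 ^ R ≤ (2 * B) ^ 2 ^ (R + 1) := by
      rw [pow_succ 2 R, mul_comm (2 ^ R) 2, pow_mul, ← mul_pow]
      refine Nat.pow_le_pow_left ?_ _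
      nlinarith
    rw [h2]
    calc (a * a) ^ 2 ^ R ≤ (2 * (m * L)) ^ 2 ^ R := Nat.pow_le_pow_left h1 _
      _ = 2 ^ 2 ^ R * L ^ 2 ^ R * m ^ 2 ^ R := by rw [mul_pow, mul_pow]; ring
      _ ≤ 2 ^ 2 ^ R * L ^ 2 ^ R * ((2 * B) ^ 2 ^ R * μ * L ^ (2 ^ R - 1)) :=
          Nat.mul_le_mul_left _ hm
      _ = (2 ^ 2 ^ R * (2 * B) ^ 2 ^ R) * μ * (L ^ 2 ^ R * L ^ (2 ^ R - 1)) := by ring
      _ ≤ (2 * B) ^ 2 ^ (R + 1) * μ * L ^ (2 ^ (R + 1) - 1) := by
          rw [h4]
          exact Nat.mul_le_mul_right _ (Nat.mul_le_mul_right _ h5)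

/-- Let `W` be a finite dimensional space of functions on the group `H`, stable under the left
translations, and let `V` be the set of the common zeros of some of these functions. If on each
orbit `H' b ⊆ V` of a subgroup `H'` there are at most `B` classes of a relation, and each class
contains at most `μ` elements of the finite set `A ⊆ V`, then `A` grows. (`Q` is a property of the
elements of the finite sets that are considered.) -/
theorem growth (Q : H → Prop) (W : Submodule K (H → K)) [FiniteDimensional K W]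
    (hW : ∀ g : H, ∀ f ∈ W, tr g f ∈ W) (S : Set (H → K)) (hS : S ⊆ W) (r : H → H → Prop)
    [DecidableRel r] (B : ℕ) (hB1 : 1 ≤ B)
    (hB : ∀ (H' : Subgroup H) (b : H), (∀ g ∈ H', ∀ f ∈ S, f (g * b) = 0) → ∀ A : Finset H,
      (∀ a ∈ A, Q a) → (∀ a ∈ A, a / b ∈ H') → ∀ μ : ℕ, (∀ a ∈ A, #{b ∈ A | r a b} ≤ μ) → #A ≤ B * μ)
    (L : ℕ) (μ : ℕ) (R : ℕ) : ∀ A : Finset H, (∀ a ∈ A, Q a) → (∀ a ∈ A, ∀ f ∈ S, f a = 0) →
      #(A / A) ≤ L → (∀ a ∈ A, #{b ∈ A | r a b} ≤ μ) →
      Module.finrank K W ≤ Module.finrank K (van W (A : Set H)) + R →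
      #A ^ 2 ^ R ≤ (2 * B) ^ 2 ^ R * μ * L ^ (2 ^ R - 1) := by
  have hsub : ∀ A : Finset H, (∀ a ∈ A, #{b ∈ A | r a b} ≤ μ) → ∀ A' ⊆ A,
      ∀ a ∈ A', #{b ∈ A' | r a b} ≤ μ := fun A hA A' hA' a ha =>
    (Finset.card_le_card (Finset.filter_subset_filter _ hA')).trans (hA a (hA' ha))
  have hn : ∀ A : Finset H, (∀ a ∈ A, Q a) → (∀ a ∈ A, ∀ f ∈ S, f a = 0) → (∀ a ∈ A, #{b ∈ A | r a b} ≤ μ) →
      ∀ a ∈ A, ∀ A' : Finset H, A' ⊆ A → (∀ b ∈ A', b / a ∈ stab (van W (A : Set H))) →
      #A' ≤ B * μ := by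
    intro A hAQ hA hμ a ha A' hA' hb
    refine hB (stab (van W (A : Set H))) a ?_ A' (fun a ha => hAQ a (hA' ha)) hb μ (hsub A hμ A' hA')
    intro g hg f hf
    have h1 : f ∈ van W (A : Set H) := ⟨hS hf, fun b hb => hA b (Finset.mem_coe.1 hb) f hf⟩
    exact ((mem_stab.1 hg) f h1).1.2 a (Finset.mem_coe.2 ha)
  have hrank : ∀ (A : Finset H) (g : H), g ∉ stab (van W (A : Set H)) →
      Module.finrank K (van W (A : Set H)) <
        Module.finrank K (van W ((Finset.filter (fun a => g * a ∈ A) A : Finset H) : Set H)) := by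
    intro A g hg
    by_contra hcon
    push Not at hcon
    apply hg
    refine mem_stab_of_rank W hW _ g ?_
    have h1 : ({a | a ∈ (A : Set H) ∧ g * a ∈ (A : Set H)} : Set H) =
        ((Finset.filter (fun a => g * a ∈ A) A : Finset H) : Set H) := by
      ext a
      simp
    rw [h1]
    exact hcon
  induction R with
  | zero =>
    intro A hAQ hA hL hμ hR
    rcases A.eq_empty_or_nonempty with rfl | hne
    · simp
    have h1 := step_count A (stab (van W (A : Set H))) (B * μ) 0 (hn A hAQ hA hμ) (fun g hg => by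
      exfalso
      have h2 := hrank A g hg
      have h3 := Submodule.finrank_mono (van_le W
        ((Finset.filter (fun a => g * a ∈ A) A : Finset H) : Set H))
      omega)
    have hpos : 0 < #A := Finset.card_pos.2 hne
    have h2 : #A ≤ B * μ := by
      rw [zero_mul, add_zero] at h1
      exact Nat.le_of_mul_le_mul_right h1 hpos
    simp only [pow_zero, pow_one, Nat.sub_self, mul_one]
    nlinarith
  | succ R ih =>
    intro A hAQ hA hL hμ hR
    rcases A.eq_empty_or_nonempty with rfl | hne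
    · simp
    classical
    have hpos : 0 < #A := Finset.card_pos.2 hne
    -- the largest intersection
    obtain ⟨m, hm1, hm2⟩ : ∃ m : ℕ, (∀ g : H, g ∉ stab (van W (A : Set H)) →
        #{a ∈ A | g * a ∈ A} ≤ m) ∧ m ^ 2 ^ R ≤ (2 * B) ^ 2 ^ R * μ * L ^ (2 ^ R - 1) := by
      let T : Set ℕ := {m | ∃ g : H, g ∉ stab (van W (A : Set H)) ∧ #{a ∈ A | g * a ∈ A} = m}
      by_cases hT : T.Nonempty
      · have hbd : BddAbove T := by
          refine ⟨#A, ?_⟩
          rintro _ ⟨g, -, rfl⟩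
          exact Finset.card_filter_le _ _
        obtain ⟨g, hg, hgm⟩ := Nat.sSup_mem hT hbd
        refine ⟨sSup T, fun g' hg' => le_csSup hbd ⟨g', hg', rfl⟩, ?_⟩
        rw [← hgm]
        refine ih _ ?_ ?_ ?_ ?_ ?_
        · intro a ha
          exact hAQ a (Finset.mem_filter.1 ha).1
        · intro a ha
          exact hA a (Finset.mem_filter.1 ha).1
        · exact (Finset.card_le_card (Finset.div_subset_div (Finset.filter_subset _ _)
            (Finset.filter_subset _ _))).trans hL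
        · exact hsub A hμ _ (Finset.filter_subset _ _)
        · have := hrank A g hg
          omega
      · refine ⟨0, fun g hg => absurd ⟨_, g, hg, rfl⟩ hT, ?_⟩
        rw [zero_pow (by positivity)]
        exact Nat.zero_le _
    have h1 := step_count A (stab (van W (A : Set H))) (B * μ) m (hn A hAQ hA hμ) hm1
    refine step_arith hB1 hpos ?_ (h1.trans (Nat.add_le_add_left (Nat.mul_le_mul_left _ hL) _)) hm2
    obtain ⟨a, ha⟩ := hne
    refine le_trans ?_ hL
    exact Finset.card_le_card_div_right ⟨a, ha⟩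

end count

end Pool.Agent.K6.H47.GR
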