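import Pool.Agent.K6.H47.GR.Core
import Pool.Agent.TH717.GO.UE

set_option autoImplicit false

/-! # Functions given by polynomials on the orbit of a linear representation -/

namespace Pool.Agent.K6.H47.GR

open Finset Matrix Pool.Agent.TH717.GO
open scoped Pointwise

variable {K : Type} [Field K] {H : Type} [Group H] {n r : ℕ}

/-- `1` and the coordinates of `ρ(h) v` -/
def yv (ρ : H →* GL (Fin r) K) (v : Fin r → K) : Option (Fin r) → H → K
  | none => 1
  | some j => fun h => ((ρ h : Matrix (Fin r) (Fin r) K).mulVec v) j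

/-- the span of these functions -/
def W1 (ρ : H →* GL (Fin r) K) (v : Fin r → K) : Submodule K (H → K) :=
  Submodule.span K (Set.range (yv ρ v))

theorem one_mem_W1 (ρ : H →* GL (Fin r) K) (v : Fin r → K) : (1 : H → K) ∈ W1 ρ v :=
  Submodule.subset_span ⟨none, rfl⟩

theorem one_le_W1 (ρ : H →* GL (Fin r) K) (v : Fin r → K) : 1 ≤ W1 ρ v := by
  rw [Submodule.one_le]
  exact one_mem_W1 ρ v

theorem map_W1_le (ρ : H →* GL (Fin r) K) (v : Fin r → K) (g : H) :
    (W1 ρ v).map (tr (K := K) g).toLinearMap ≤ W1 ρ v := by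
  unfold W1
  rw [Submodule.map_span, Submodule.span_le]
  rintro _ ⟨_, ⟨i, rfl⟩, rfl⟩
  cases i with
  | none => exact one_mem_W1 ρ v
  | some j =>
    have h1 : (tr (K := K) g).toLinearMap (yv ρ v (some j)) =
        ∑ l, (ρ g : Matrix (Fin r) (Fin r) K) j l • yv ρ v (some l) := by
      funext h
      change ((ρ (g * h) : Matrix (Fin r) (Fin r) K).mulVec v) j = _
      rw [map_mul, Units.val_mul, ← mulVec_mulVec, Finset.sum_apply]
      rfl
    rw [h1]
    exact Submodule.sum_mem _ fun l _ => Submodule.smul_mem _ _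
      (Submodule.subset_span ⟨some l, rfl⟩)

theorem tr_mem_pow (ρ : H →* GL (Fin r) K) (v : Fin r → K) (d : ℕ) (g : H) (f : H → K)
    (hf : f ∈ W1 ρ v ^ d) : tr g f ∈ W1 ρ v ^ d := by
  have h1 : (W1 ρ v ^ d).map (tr (K := K) g).toLinearMap ≤ W1 ρ v ^ d := by
    rw [Submodule.map_pow]
    exact pow_le_pow_left' (map_W1_le ρ v g) _
  exact h1 ⟨f, hf, rfl⟩

theorem finrank_pow_le (ρ : H →* GL (Fin r) K) (v : Fin r → K) (d : ℕ) :
    FiniteDimensional K ((W1 ρ v ^ d : Submodule K (H → K))) ∧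
      Module.finrank K ((W1 ρ v ^ d : Submodule K (H → K))) ≤ (r + 1) ^ d := by
  classical
  have h1 : W1 ρ v ^ d = Submodule.span K
      (((Finset.univ.image (yv ρ v)) ^ d : Finset (H → K)) : Set (H → K)) := by
    unfold W1
    rw [Submodule.span_pow, Finset.coe_pow, Finset.coe_image, Finset.coe_univ, Set.image_univ]
  rw [h1]
  refine ⟨FiniteDimensional.span_finset K _, (finrank_span_finset_le_card _).trans ?_⟩
  refine Finset.card_pow_le.trans (Nat.pow_le_pow_left ?_ _)
  refine Finset.card_image_le.trans ?_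
  simp

theorem coord_mem (ρ : H →* GL (Fin r) K) (v : Fin r → K) (M : Matrix (Fin (n + 1)) (Fin r) K)
    (j : Fin (n + 1)) : (fun h => orb M ρ v h j) ∈ W1 ρ v := by
  have h1 : (fun h => orb M ρ v h j) = ∑ l, M j l • yv ρ v (some l) := by
    funext h
    rw [Finset.sum_apply]
    rfl
  rw [h1]
  exact Submodule.sum_mem _ fun l _ => Submodule.smul_mem _ _
    (Submodule.subset_span ⟨some l, rfl⟩)

omit [Group H] in
theorem prod_mem_pow {ι : Type} (N : Submodule K (H → K)) (x : ι → H → K) (hx : ∀ i, x i ∈ N)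
    (s : Finset ι) (m : ι → ℕ) : ∏ i ∈ s, x i ^ m i ∈ N ^ ∑ i ∈ s, m i := by
  classical
  induction s using Finset.induction_on with
  | empty =>
    rw [Finset.prod_empty, Finset.sum_empty, pow_zero]
    exact Submodule.one_le.1 le_rfl
  | insert a s ha ih =>
    rw [Finset.prod_insert ha, Finset.sum_insert ha, pow_add]
    exact Submodule.mul_mem_mul (Submodule.pow_mem_pow _ (hx a) _) ih

/-- the values of a form of degree at most `d` -/
theorem form_mem {k : Type} [Field k] [Algebra k K] (ρ : H →* GL (Fin r) K) (v : Fin r → K)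
    (M : Matrix (Fin (n + 1)) (Fin r) K) {d e : ℕ} (he : e ≤ d)
    (F : MvPolynomial (Fin (n + 1)) k) (hF : F.IsHomogeneous e) :
    (fun h => MvPolynomial.aeval (orb M ρ v h) F) ∈ W1 ρ v ^ d := by
  have h1 : (fun h => MvPolynomial.aeval (orb M ρ v h) F) = ∑ m ∈ F.support,
      algebraMap k K (F.coeff m) • ∏ i, (fun h => orb M ρ v h i) ^ m i := by
    funext h
    rw [MvPolynomial.aeval_def, MvPolynomial.eval₂_eq', Finset.sum_apply]
    refine Finset.sum_congr rfl fun m _ => ?_
    rw [Pi.smul_apply, smul_eq_mul, Finset.prod_apply]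
    rfl
  rw [h1]
  refine Submodule.sum_mem _ fun m hm => Submodule.smul_mem _ _ ?_
  have h2 := prod_mem_pow (W1 ρ v) (fun i h => orb M ρ v h i) (coord_mem ρ v M)
    Finset.univ (fun i => m i)
  have h3 : ∑ i, m i = e := by
    by_contra h4
    refine MvPolynomial.mem_support_iff.1 hm (hF.coeff_eq_zero ?_)
    rw [Finsupp.degree_eq_sum]
    exact h4
  rw [h3] at h2
  exact (pow_le_pow_right₀ (one_le_W1 ρ v) he) h2

/-- the number of points on the orbits of the subgroups is at most `B` -/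
def OrbBd {k : Type} [Field k] [Algebra k K] (FF : Set (MvPolynomial (Fin (n + 1)) k))
    (ρ : H →* GL (Fin r) K) (M : Matrix (Fin (n + 1)) (Fin r) K) (B : ℕ) : Prop :=
  ∀ (H' : Subgroup H) (v : Fin r → K),
    (∀ h : H', ∀ F ∈ FF, MvPolynomial.aeval (orb M (ρ.comp H'.subtype) v h) F = 0) →
    (orbitPts M (ρ.comp H'.subtype) v).encard ≤ (B : ℕ∞)

open Classical in
/-- growth of sets of group elements which represent points of a variety -/
theorem growth_orb [DecidableEq H] {k : Type} [Field k] [Algebra k K] (FF : Set (MvPolynomial (Fin (n + 1)) k))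
    {d : ℕ} (hhom : ∀ F ∈ FF, ∃ e ≤ d, F.IsHomogeneous e) (ρ : H →* GL (Fin r) K)
    (M : Matrix (Fin (n + 1)) (Fin r) K) (v : Fin r → K) {B : ℕ} (hB1 : 1 ≤ B)
    (hB : OrbBd FF ρ M B) (A : Finset H) (h0 : ∀ a ∈ A, orb M ρ v a ≠ 0)
    (hX : ∀ a ∈ A, ∀ F ∈ FF, MvPolynomial.aeval (orb M ρ v a) F = 0) (μ : ℕ)
    (hμ : ∀ a ∈ A, #{b ∈ A | ∃ s : K, orb M ρ v b = s • orb M ρ v a} ≤ μ) :
    #A ^ 2 ^ (r + 1) ^ d ≤
      (2 * B) ^ 2 ^ (r + 1) ^ d * μ * #(A / A) ^ (2 ^ (r + 1) ^ d - 1) := by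
  obtain ⟨hfin, hrk⟩ := finrank_pow_le ρ v d
  refine growth (fun a => orb M ρ v a ≠ 0) (W1 ρ v ^ d) (fun g f hf => tr_mem_pow ρ v d g f hf)
    {f | ∃ F ∈ FF, f = fun h => MvPolynomial.aeval (orb M ρ v h) F} ?_
    (fun a b => ∃ s : K, orb M ρ v b = s • orb M ρ v a) B hB1 ?_ _ μ _ A h0 ?_ le_rfl ?_
    (hrk.trans (Nat.le_add_left _ _))
  · rintro _ ⟨F, hF, rfl⟩
    obtain ⟨e, he, hFe⟩ := hhom F hF
    exact form_mem ρ v M he F hFe
  · intro H' b hb A' hQ hA' μ' hμ'
    have horb : ∀ h : H', orb M (ρ.comp H'.subtype) ((ρ b : Matrix _ _ K).mulVec v) h =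
        orb M ρ v (h * b) := by
      intro h
      unfold orb
      rw [map_mul, Units.val_mul, ← mulVec_mulVec]
      rfl
    have h1 := hB H' ((ρ b : Matrix (Fin r) (Fin r) K).mulVec v) (by
      intro h F hF
      rw [horb]
      exact hb h h.2 _ ⟨F, hF, rfl⟩)
    have hfinP := Set.finite_of_encard_le_coe h1
    have hcard : hfinP.toFinset.card ≤ B := by
      rw [hfinP.encard_eq_coe_toFinset_card] at h1
      exact_mod_cast h1
    let pt : H → Projectivization K (Fin (n + 1) → K) := fun a =>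
      if h : orb M ρ v a ≠ 0 then Projectivization.mk K _ h else Projectivization.mk K
        (fun _ => 1) (fun h => one_ne_zero (congrFun h 0))
    have hpt : ∀ a ∈ A', pt a ∈ hfinP.toFinset := by
      intro a ha
      rw [Set.Finite.mem_toFinset]
      have h2 : orb M ρ v a ≠ 0 := hQ a ha
      have h3 : orb M (ρ.comp H'.subtype) ((ρ b : Matrix _ _ K).mulVec v) ⟨a / b, hA' a ha⟩ =
          orb M ρ v a := by
        rw [horb]
        simp
      refine ⟨⟨a / b, hA' a ha⟩, by rw [h3]; exact h2, ?_⟩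
      simp only [pt, dif_pos h2]
      simp only [h3]
    refine (Finset.card_le_mul_card_image_of_maps_to hpt μ' ?_).trans ?_
    · intro P hP
      by_cases hemp : ∃ a ∈ A', pt a = P
      · obtain ⟨a, ha, rfl⟩ := hemp
        refine le_trans (Finset.card_le_card ?_) (hμ' a ha)
        intro b' hb'
        obtain ⟨hb1, hb2⟩ := Finset.mem_filter.1 hb'
        refine Finset.mem_filter.2 ⟨hb1, ?_⟩
        have h2 : orb M ρ v a ≠ 0 := hQ a ha
        have h3 : orb M ρ v b' ≠ 0 := hQ b' hb1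
        simp only [pt, dif_pos h2, dif_pos h3] at hb2
        obtain ⟨s, hs⟩ := (Projectivization.mk_eq_mk_iff' K _ _ h3 h2).1 hb2
        exact ⟨s, hs.symm⟩
      · rw [Finset.card_eq_zero.2]
        · exact Nat.zero_le _
        · rw [Finset.filter_eq_empty_iff]
          intro a ha haP
          exact hemp ⟨a, ha, haP⟩
    · rw [mul_comm]
      exact Nat.mul_le_mul_right _ hcard
  · rintro a ha _ ⟨F, hF, rfl⟩
    exact hX a ha F hF
  · exact hμ

end Pool.Agent.K6.H47.GR
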