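import Pool.Agent.K6.H47.GR.Conv
import Pool.Agent.K6.H47.GR.BSG

set_option autoImplicit false

/-! # Growth: the three inequalities -/

namespace Pool.Agent.K6.H47.GR

open Finset Matrix Pool.Agent.TH717.GO
open scoped Pointwise

variable {H : Type} [Group H] [DecidableEq H]

theorem prod_growth (A T : Finset H) (μ B Q : ℕ)
    (h : #A ^ Q ≤ (2 * B) ^ Q * μ * #(A / A) ^ (Q - 1)) :
    #A ^ Q * #T ^ (Q - 1) ≤ (2 * B) ^ Q * μ * (#(A * T) ^ 2) ^ (Q - 1) := by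
  calc #A ^ Q * #T ^ (Q - 1) ≤ ((2 * B) ^ Q * μ * #(A / A) ^ (Q - 1)) * #T ^ (Q - 1) :=
        Nat.mul_le_mul_right _ h
    _ = (2 * B) ^ Q * μ * (#(A / A) * #T) ^ (Q - 1) := by rw [mul_pow]; ring
    _ ≤ (2 * B) ^ Q * μ * (#(A * T) ^ 2) ^ (Q - 1) := by
        refine Nat.mul_le_mul_left _ (Nat.pow_le_pow_left ?_ _)
        rw [sq]
        exact Finset.ruzsa_triangle_inequality_div_mul_mul A T A

theorem energy_growth (A : Finset H) (μ B Q : ℕ) (hQ : 1 ≤ Q)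
    (h : ∀ A' ⊆ A, #A' ^ Q ≤ (2 * B) ^ Q * μ * #(A' / A') ^ (Q - 1)) :
    #A * energy A ^ (18 * Q) ≤ (2 ^ 47 * B) ^ Q * μ * #A ^ (54 * Q) := by
  rcases A.eq_empty_or_nonempty with rfl | hA
  · simp
  obtain ⟨n, hn⟩ : ∃ n : ℝ, n = #A := ⟨_, rfl⟩
  have hn1 : 1 ≤ n := by
    rw [hn]
    exact_mod_cast Finset.card_pos.2 hA
  have hn0 : 0 < n := by linarith
  obtain ⟨E, hE⟩ : ∃ E : ℝ, E = energy A := ⟨_, rfl⟩
  have hE0 : 0 < E := by
    rw [hE]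
    have : 0 < energy A := by
      rw [energy_eq]
      obtain ⟨a, ha⟩ := hA
      refine Finset.sum_pos' (fun _ _ => Nat.zero_le _) ⟨(a, a), Finset.mem_product.2 ⟨ha, ha⟩, ?_⟩
      exact Finset.card_pos.2 ⟨(a, a), Finset.mem_filter.2 ⟨Finset.mem_product.2 ⟨ha, ha⟩, rfl⟩⟩
    exact_mod_cast this
  have hEn : E ≤ n ^ 3 := by
    rw [hE, hn]
    exact_mod_cast energy_le A
  obtain ⟨κ, hκ⟩ : ∃ κ : ℝ, κ = n ^ 3 / E := ⟨_, rfl⟩
  have hκE : κ * E = n ^ 3 := by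
    rw [hκ]
    field_simp
  have hκ1 : 1 ≤ κ := by
    rw [hκ, one_le_div hE0]
    exact hEn
  obtain ⟨A', hA', h1, h2⟩ := bsg A hA κ hκ1 (by rw [← hn, ← hE, hκE])
  rw [← hn] at h1 h2
  have h3 : (#A' : ℝ) ^ Q ≤ (2 * B) ^ Q * μ * (#(A' / A') : ℝ) ^ (Q - 1) := by
    exact_mod_cast h A' hA'
  have hκ0 : 0 < κ := by linarith
  -- the constant
  have hc : (4 * 3072 ^ 2 * (2 * κ) ^ 17 * n : ℝ) = (4 * 3072 ^ 2 * 2 ^ 17) * κ ^ 17 * n := by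
    ring
  rw [hc] at h2
  set c : ℝ := 4 * 3072 ^ 2 * 2 ^ 17 with hcdef
  have hc1 : 1 ≤ c := by norm_num [hcdef]
  have h4 : n ^ Q ≤ (24 * B * c) ^ Q * μ * κ ^ (18 * Q) * n ^ (Q - 1) := by
    have hκQ : κ ^ Q * (κ ^ 17) ^ (Q - 1) ≤ κ ^ (18 * Q) := by
      rw [← pow_mul, ← pow_add]
      refine pow_le_pow_right₀ hκ1 ?_
      omega
    have hcQ : c ^ (Q - 1) ≤ c ^ Q := pow_le_pow_right₀ hc1 (Nat.sub_le _ _)
    calc n ^ Q ≤ (12 * κ * #A') ^ Q := pow_le_pow_left₀ hn0.le h1 _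
      _ = (12 * κ) ^ Q * (#A' : ℝ) ^ Q := mul_pow _ _ _
      _ ≤ (12 * κ) ^ Q * ((2 * B) ^ Q * μ * (#(A' / A') : ℝ) ^ (Q - 1)) :=
          mul_le_mul_of_nonneg_left h3 (by positivity)
      _ ≤ (12 * κ) ^ Q * ((2 * B) ^ Q * μ * (c * κ ^ 17 * n) ^ (Q - 1)) := by
          refine mul_le_mul_of_nonneg_left ?_ (by positivity)
          refine mul_le_mul_of_nonneg_left ?_ (by positivity)
          exact pow_le_pow_left₀ (Nat.cast_nonneg _) h2 _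
      _ = (24 * B) ^ Q * c ^ (Q - 1) * μ * (κ ^ Q * (κ ^ 17) ^ (Q - 1)) * n ^ (Q - 1) := by
          rw [mul_pow 12 κ, mul_pow (c * κ ^ 17) n, mul_pow c, mul_pow 2 (B : ℝ),
            mul_pow 24 (B : ℝ), show (24 : ℝ) = 12 * 2 by norm_num, mul_pow 12 2]
          ring
      _ ≤ (24 * B) ^ Q * c ^ Q * μ * κ ^ (18 * Q) * n ^ (Q - 1) := by
          refine mul_le_mul_of_nonneg_right ?_ (by positivity)
          refine mul_le_mul ?_ hκQ (by positivity) (by positivity)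
          refine mul_le_mul_of_nonneg_right ?_ (Nat.cast_nonneg _)
          exact mul_le_mul_of_nonneg_left hcQ (by positivity)
      _ = _ := by rw [mul_pow (24 * (B : ℝ)) c]
  have h5 : n ≤ (24 * B * c) ^ Q * μ * κ ^ (18 * Q) := by
    refine le_of_mul_le_mul_right ?_ (pow_pos hn0 (Q - 1))
    calc n * n ^ (Q - 1) = n ^ Q := by rw [← pow_succ', Nat.sub_add_cancel hQ]
      _ ≤ _ := h4
  have h6 : n * E ^ (18 * Q) ≤ (24 * B * c) ^ Q * μ * n ^ (54 * Q) := by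
    calc n * E ^ (18 * Q) ≤ ((24 * B * c) ^ Q * μ * κ ^ (18 * Q)) * E ^ (18 * Q) :=
          mul_le_mul_of_nonneg_right h5 (by positivity)
      _ = (24 * B * c) ^ Q * μ * (κ * E) ^ (18 * Q) := by rw [mul_pow κ E]; ring
      _ = _ := by rw [hκE, ← pow_mul]; ring_nf
  have h7 : (24 * B * c : ℝ) ^ Q ≤ ((2 : ℝ) ^ 47 * B) ^ Q := by
    refine pow_le_pow_left₀ (by positivity) ?_ _
    have : (24 : ℝ) * c ≤ 2 ^ 47 := by norm_num [hcdef]
    calc 24 * (B : ℝ) * c = (24 * c) * B := by ring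
      _ ≤ 2 ^ 47 * B := mul_le_mul_of_nonneg_right this (Nat.cast_nonneg _)
  have h8 : n * E ^ (18 * Q) ≤ ((2 : ℝ) ^ 47 * B) ^ Q * μ * n ^ (54 * Q) := by
    refine h6.trans ?_
    refine mul_le_mul_of_nonneg_right ?_ (by positivity)
    exact mul_le_mul_of_nonneg_right h7 (Nat.cast_nonneg _)
  rw [hn, hE] at h8
  exact_mod_cast h8

end Pool.Agent.K6.H47.GR
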